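import Pool.Agent.Helper39.YM.StFin
import Pool.Agent.Helper92.YMF.Bd

/-!
# Project YM, FIN, module RB: bounds for the `R1` terms
-/

set_option autoImplicit false

namespace Pool.Agent.Helper65.YMR

open Finset Helper35.YM Pool.Agent.Helper92.YMF Pool.Agent.Helper39.YM

variable {n p : ℕ}

theorem lf_add (B : Fin p → Fin n → Fin n → ℝ) (L L' : Fin p → Fin n → Fin n → Fin n → ℝ)
    (i : Fin n) : lf B (L + L') i = lf B L i + lf B L' i := by
  unfold lf
  simp only [Pi.add_apply, mul_add, sum_add_distrib]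

theorem thf_add (B : Fin p → Fin n → Fin n → ℝ) (L L' : Fin p → Fin n → Fin n → Fin n → ℝ)
    (a b : Fin p) (i : Fin n) : thf B (L + L') a b i = thf B L a b i + thf B L' a b i := by
  unfold thf
  rw [← sum_add_distrib]
  refine sum_congr rfl fun j _ => ?_
  rw [← sum_add_distrib]
  refine sum_congr rfl fun k _ => ?_
  simp only [Pi.add_apply]
  ring

/-- `Σ_i (Σ_c Σ_k B_ik v_k)² ≤ S |v|²` -/
theorem bv_sq (B : Fin p → Fin n → Fin n → ℝ) (v : Fin p → Fin n → ℝ) :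
    ∑ i, (∑ c, ∑ k, B c i k * v c k) ^ 2 ≤ sB B * nv v := by
  have h : ∀ i, (∑ c, ∑ k, B c i k * v c k) ^ 2 ≤ (∑ c, ∑ k, B c i k ^ 2) * nv v := fun i =>
    cs2 (fun c k => B c i k) v
  refine (sum_le_sum fun i _ => h i).trans (le_of_eq ?_)
  rw [← sum_mul]
  congr 1
  unfold sB
  rw [sum_comm]

/-- `Σ_{c,b,i} (Σ_k B^c_ik v^b_k)² ≤ S |v|²` -/
theorem bv3 (B : Fin p → Fin n → Fin n → ℝ) (v : Fin p → Fin n → ℝ) :
    ∑ c, ∑ b, ∑ i, (∑ k, B c i k * v b k) ^ 2 ≤ sB B * nv v := by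
  have h : ∀ c b i, (∑ k, B c i k * v b k) ^ 2 ≤ (∑ k, B c i k ^ 2) * ∑ k, v b k ^ 2 :=
    fun c b i => cs (fun k => B c i k) (v b)
  refine (sum_le_sum fun c _ => sum_le_sum fun b _ => sum_le_sum fun i _ => h c b i).trans
    (le_of_eq ?_)
  unfold sB nv
  rw [sum_mul]
  refine sum_congr rfl fun c _ => ?_
  rw [mul_sum]
  refine sum_congr rfl fun b _ => ?_
  rw [sum_mul]

theorem bv3' (B : Fin p → Fin n → Fin n → ℝ) (v : Fin p → Fin n → ℝ) :
    ∑ c, ∑ b, ∑ i, (∑ k, (B c i k * v b k - B b i k * v c k)) ^ 2 ≤ 4 * (sB B * nv v) := by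
  have h : ∀ c b i, (∑ k, (B c i k * v b k - B b i k * v c k)) ^ 2 ≤
      2 * (∑ k, B c i k * v b k) ^ 2 + 2 * (∑ k, B b i k * v c k) ^ 2 := by
    intro c b i
    rw [sum_sub_distrib]
    nlinarith [sq_nonneg ((∑ k, B c i k * v b k) + ∑ k, B b i k * v c k)]
  have h1 := bv3 B v
  have h2 : ∑ c, ∑ b, ∑ i, (∑ k, B b i k * v c k) ^ 2 ≤ sB B * nv v := by
    rw [sum_comm]
    exact h1
  calc ∑ c, ∑ b, ∑ i, (∑ k, (B c i k * v b k - B b i k * v c k)) ^ 2
      ≤ ∑ c, ∑ b, ∑ i, (2 * (∑ k, B c i k * v b k) ^ 2 + 2 * (∑ k, B b i k * v c k) ^ 2) :=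
        sum_le_sum fun c _ => sum_le_sum fun b _ => sum_le_sum fun i _ => h c b i
    _ = 2 * (∑ c, ∑ b, ∑ i, (∑ k, B c i k * v b k) ^ 2)
        + 2 * ∑ c, ∑ b, ∑ i, (∑ k, B b i k * v c k) ^ 2 := by
        simp only [sum_add_distrib, mul_sum]
    _ ≤ 4 * (sB B * nv v) := by linarith

/-- `Σ (Σ_k L_ijk v_k)² ≤ |L|² |v|²` -/
theorem lv4 (L : Fin p → Fin n → Fin n → Fin n → ℝ) (v : Fin p → Fin n → ℝ) :
    ∑ c, ∑ b, ∑ i, ∑ j, (∑ k, L c i j k * v b k) ^ 2 ≤ nL L * nv v := by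
  have h : ∀ c b i j, (∑ k, L c i j k * v b k) ^ 2 ≤ (∑ k, L c i j k ^ 2) * ∑ k, v b k ^ 2 :=
    fun c b i j => cs (fun k => L c i j k) (v b)
  refine (sum_le_sum fun c _ => sum_le_sum fun b _ => sum_le_sum fun i _ => sum_le_sum fun j _ =>
    h c b i j).trans (le_of_eq ?_)
  unfold nL nv
  rw [sum_mul]
  refine sum_congr rfl fun c _ => ?_
  rw [mul_sum]
  refine sum_congr rfl fun b _ => ?_
  rw [sum_mul]
  refine sum_congr rfl fun i _ => ?_
  rw [sum_mul]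

/-- from a square bound to a bound: `x² ≤ (k s S)² A B` with `A B ≤ ((A+B)/2)²` -/
theorem le_of_sq {x y : ℝ} (hy : 0 ≤ y) (h : x ^ 2 ≤ y ^ 2) : |x| ≤ y :=
  abs_le_of_sq_le_sq h hy

theorem hRB (h1 : StR1) (h2 : StCS) : StRB := by
  intro n p kap bet lam a s q h B L v y hB hL hk hb hb1 hl hl1 han hs hs1 hsa hh hv hy
  obtain ⟨rN, rA, rl, rt, rF, rFL, rFR⟩ := h1 n p a B L v hB hL
  obtain ⟨c1, c2, c3, c4, c5, c6, c7, -, -⟩ := h2 n p h B L L v
  have hS := sB_nonneg B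
  have hN := nL_nonneg L
  have hV := nv_nonneg v
  have hnh := nh_nonneg h
  set S := sB B with hSd
  set N := nL L with hNd
  set V := nv v with hVd
  have ha : 0 ≤ a := by rw [← hsa]; positivity
  have hnh2 : nh h ≤ 2 * a := by linarith
  have hq : 0 ≤ q ^ 2 := sq_nonneg q
  have hP : nh h * S * V ≤ 2 * (S * q ^ 2) := by
    have e1 : nh h * V ≤ 2 * q ^ 2 := by
      calc nh h * V ≤ 2 * a * V := mul_le_mul_of_nonneg_right hnh2 hV
        _ = 2 * (a * V) := by ring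
        _ ≤ 2 * q ^ 2 := by linarith
    calc nh h * S * V = S * (nh h * V) := by ring
      _ ≤ S * (2 * q ^ 2) := mul_le_mul_of_nonneg_left e1 hS
      _ = 2 * (S * q ^ 2) := by ring
  have haV : a * a * V ≤ s ^ 2 * q ^ 2 := by
    rw [hsa]
    calc a * a * V = a * (a * V) := by ring
      _ ≤ a * q ^ 2 := mul_le_mul_of_nonneg_left hv ha
  -- sizes of l(R), theta(R)
  have lR : ∑ i, lf B (r1 a v) i ^ 2 ≤ 4 * (s ^ 2 * (S * q ^ 2)) := by
    have e : ∀ i, lf B (r1 a v) i ^ 2 = 4 * (a * a) * (∑ c, ∑ k, B c i k * v c k) ^ 2 := by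
      intro i
      rw [rl i]
      ring
    rw [sum_congr rfl fun i _ => e i, ← mul_sum]
    have e2 := bv_sq B v
    have e3 : 0 ≤ 4 * (a * a) := by positivity
    calc 4 * (a * a) * ∑ i, (∑ c, ∑ k, B c i k * v c k) ^ 2 ≤ 4 * (a * a) * (S * V) :=
          mul_le_mul_of_nonneg_left e2 e3
      _ = 4 * (S * (a * a * V)) := by ring
      _ ≤ 4 * (S * (s ^ 2 * q ^ 2)) := by
          have := mul_le_mul_of_nonneg_left haV hS
          linarith
      _ = 4 * (s ^ 2 * (S * q ^ 2)) := by ring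
  have tR : ∑ c, ∑ b, ∑ i, thf B (r1 a v) c b i ^ 2 ≤ 16 * (s ^ 2 * (S * q ^ 2)) := by
    have e : ∀ c b i, thf B (r1 a v) c b i ^ 2 =
        4 * (a * a) * (∑ k, (B c i k * v b k - B b i k * v c k)) ^ 2 := by
      intro c b i
      rw [rt c b i]
      ring
    simp only [e, ← mul_sum]
    have e2 := bv3' B v
    have e3 : 0 ≤ 4 * (a * a) := by positivity
    calc 4 * (a * a) * ∑ c, ∑ b, ∑ i, (∑ k, (B c i k * v b k - B b i k * v c k)) ^ 2
        ≤ 4 * (a * a) * (4 * (S * V)) := mul_le_mul_of_nonneg_left e2 e3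
      _ = 16 * (S * (a * a * V)) := by ring
      _ ≤ 16 * (S * (s ^ 2 * q ^ 2)) := by
          have := mul_le_mul_of_nonneg_left haV hS
          linarith
      _ = 16 * (s ^ 2 * (S * q ^ 2)) := by ring
  have hSq : 0 ≤ S * q ^ 2 := mul_nonneg hS hq
  have hss : s ^ 2 * (S * q ^ 2) ≤ s * (S * q ^ 2) := by
    have : s ^ 2 ≤ s := by nlinarith
    exact mul_le_mul_of_nonneg_right this hSq
  have hAM : N * q ^ 2 ≤ ((N + q ^ 2) / 2) ^ 2 := by nlinarith [sq_nonneg (N - q ^ 2)]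
  -- mixed terms
  have m1 : |∑ i, y i * lf B (r1 a v) i| ≤ 2 * (s * q ^ 2) := by
    apply le_of_sq (by positivity)
    have e1 := cs y (lf B (r1 a v))
    have hy0 : 0 ≤ ∑ i, y i ^ 2 := sum_nonneg fun _ _ => sq_nonneg _
    calc (∑ i, y i * lf B (r1 a v) i) ^ 2 ≤ (∑ i, y i ^ 2) * ∑ i, lf B (r1 a v) i ^ 2 := e1
      _ ≤ (∑ i, y i ^ 2) * (4 * (s ^ 2 * (S * q ^ 2))) := mul_le_mul_of_nonneg_left lR hy0
      _ = 4 * (s ^ 2 * q ^ 2) * (S * ∑ i, y i ^ 2) := by ring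
      _ ≤ 4 * (s ^ 2 * q ^ 2) * q ^ 2 := mul_le_mul_of_nonneg_left hy (by positivity)
      _ = (2 * (s * q ^ 2)) ^ 2 := by ring
  have m2 : |∑ i, lf B L i * lf B (r1 a v) i| ≤ s * (S * (N + q ^ 2)) := by
    apply le_of_sq (by positivity)
    have e1 := cs (lf B L) (lf B (r1 a v))
    calc (∑ i, lf B L i * lf B (r1 a v) i) ^ 2 ≤
          (∑ i, lf B L i ^ 2) * ∑ i, lf B (r1 a v) i ^ 2 := e1
      _ ≤ (S * N) * (4 * (s ^ 2 * (S * q ^ 2))) :=
          mul_le_mul c1 lR (sum_nonneg fun _ _ => sq_nonneg _) (by positivity)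
      _ = 4 * (s * S) ^ 2 * (N * q ^ 2) := by ring
      _ ≤ 4 * (s * S) ^ 2 * ((N + q ^ 2) / 2) ^ 2 := mul_le_mul_of_nonneg_left hAM (by positivity)
      _ = (s * (S * (N + q ^ 2))) ^ 2 := by ring
  have m3 : |∑ i, lf B (r1 a v) i * zf h B v i| ≤ 3 * (s * (S * q ^ 2)) := by
    apply le_of_sq (by positivity)
    have e1 := cs (lf B (r1 a v)) (zf h B v)
    calc (∑ i, lf B (r1 a v) i * zf h B v i) ^ 2 ≤
          (∑ i, lf B (r1 a v) i ^ 2) * ∑ i, zf h B v i ^ 2 := e1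
      _ ≤ (4 * (s ^ 2 * (S * q ^ 2))) * (2 * (S * q ^ 2)) :=
          mul_le_mul lR (c3.trans hP) (sum_nonneg fun _ _ => sq_nonneg _) (by positivity)
      _ = 8 * (s * (S * q ^ 2)) ^ 2 := by ring
      _ ≤ 9 * (s * (S * q ^ 2)) ^ 2 := by linarith [sq_nonneg (s * (S * q ^ 2))]
      _ = (3 * (s * (S * q ^ 2))) ^ 2 := by ring
  have m4 : |∑ i, lf B (r1 a v) i * f0v h B v i| ≤ 6 * (s * (S * q ^ 2)) := by
    apply le_of_sq (by positivity)
    have e1 := cs (lf B (r1 a v)) (f0v h B v)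
    calc (∑ i, lf B (r1 a v) i * f0v h B v i) ^ 2 ≤
          (∑ i, lf B (r1 a v) i ^ 2) * ∑ i, f0v h B v i ^ 2 := e1
      _ ≤ (4 * (s ^ 2 * (S * q ^ 2))) * (8 * (S * q ^ 2)) :=
          mul_le_mul lR (c4.trans (by linarith)) (sum_nonneg fun _ _ => sq_nonneg _) (by positivity)
      _ = 32 * (s * (S * q ^ 2)) ^ 2 := by ring
      _ ≤ 36 * (s * (S * q ^ 2)) ^ 2 := by linarith [sq_nonneg (s * (S * q ^ 2))]
      _ = (6 * (s * (S * q ^ 2))) ^ 2 := by ring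
  have m6 : |∑ c, ∑ b, ∑ i, thf B L c b i * thf B (r1 a v) c b i| ≤ 4 * (s * (S * (N + q ^ 2))) := by
    apply le_of_sq (by positivity)
    have e1 := cs3 (thf B L) (thf B (r1 a v))
    calc (∑ c, ∑ b, ∑ i, thf B L c b i * thf B (r1 a v) c b i) ^ 2 ≤
          (∑ c, ∑ b, ∑ i, thf B L c b i ^ 2) * ∑ c, ∑ b, ∑ i, thf B (r1 a v) c b i ^ 2 := e1
      _ ≤ (4 * (S * N)) * (16 * (s ^ 2 * (S * q ^ 2))) :=
          mul_le_mul c2 tR (sum_nonneg fun _ _ => sum_nonneg fun _ _ => sum_nonneg fun _ _ =>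
            sq_nonneg _) (by positivity)
      _ = 64 * (s * S) ^ 2 * (N * q ^ 2) := by ring
      _ ≤ 64 * (s * S) ^ 2 * ((N + q ^ 2) / 2) ^ 2 := mul_le_mul_of_nonneg_left hAM (by positivity)
      _ = (4 * (s * (S * (N + q ^ 2)))) ^ 2 := by ring
  have m8 : |∑ c, ∑ b, ∑ i, e12 h B v c b i * thf B (r1 a v) c b i| ≤ 36 * (s * (S * q ^ 2)) := by
    apply le_of_sq (by positivity)
    have e1 := cs3 (e12 h B v) (thf B (r1 a v))
    calc (∑ c, ∑ b, ∑ i, e12 h B v c b i * thf B (r1 a v) c b i) ^ 2 ≤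
          (∑ c, ∑ b, ∑ i, e12 h B v c b i ^ 2) * ∑ c, ∑ b, ∑ i, thf B (r1 a v) c b i ^ 2 := e1
      _ ≤ (80 * (S * q ^ 2)) * (16 * (s ^ 2 * (S * q ^ 2))) :=
          mul_le_mul (c5.trans (by linarith)) tR (sum_nonneg fun _ _ => sum_nonneg fun _ _ =>
            sum_nonneg fun _ _ => sq_nonneg _) (by positivity)
      _ = 1280 * (s * (S * q ^ 2)) ^ 2 := by ring
      _ ≤ 1296 * (s * (S * q ^ 2)) ^ 2 := by linarith [sq_nonneg (s * (S * q ^ 2))]
      _ = (36 * (s * (S * q ^ 2))) ^ 2 := by ring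
  have m9 : |FLL B L (r1 a v)| ≤ 2 * (s * (S * (N + q ^ 2))) := by
    apply le_of_sq (by positivity)
    rw [rFL]
    have e1 := cs4 (fun (c b : Fin p) (i j : Fin n) => cmt (B c) (B b) i j)
      (fun c b i j => ∑ k, L c i j k * v b k)
    have e2 := lv4 L v
    have e0 : 0 ≤ 4 * (a * a) := by positivity
    calc (2 * a * ∑ c, ∑ b, ∑ i, ∑ j, cmt (B c) (B b) i j * ∑ k, L c i j k * v b k) ^ 2
        = 4 * (a * a) * (∑ c, ∑ b, ∑ i, ∑ j, cmt (B c) (B b) i j * ∑ k, L c i j k * v b k) ^ 2 := by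
          ring
      _ ≤ 4 * (a * a) * ((∑ c, ∑ b, ∑ i, ∑ j, cmt (B c) (B b) i j ^ 2)
            * ∑ c, ∑ b, ∑ i, ∑ j, (∑ k, L c i j k * v b k) ^ 2) := mul_le_mul_of_nonneg_left e1 e0
      _ ≤ 4 * (a * a) * ((4 * S ^ 2) * (N * V)) := by
          apply mul_le_mul_of_nonneg_left _ e0
          apply mul_le_mul (cmt_sq B) e2 _ (by positivity)
          exact sum_nonneg fun _ _ => sum_nonneg fun _ _ => sum_nonneg fun _ _ =>
            sum_nonneg fun _ _ => sq_nonneg _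
      _ = 16 * S ^ 2 * (N * (a * a * V)) := by ring
      _ ≤ 16 * S ^ 2 * (N * (s ^ 2 * q ^ 2)) :=
          mul_le_mul_of_nonneg_left (mul_le_mul_of_nonneg_left haV hN) (by positivity)
      _ = 16 * (s * S) ^ 2 * (N * q ^ 2) := by ring
      _ ≤ 16 * (s * S) ^ 2 * ((N + q ^ 2) / 2) ^ 2 := mul_le_mul_of_nonneg_left hAM (by positivity)
      _ = (2 * (s * (S * (N + q ^ 2)))) ^ 2 := by ring
  have m10 : FLL B (r1 a v) (r1 a v) ≤ 4 * (s * (S * q ^ 2)) := by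
    have e1 : ∑ c, ∑ b, ∑ i, ∑ j, cmt (B c) (B b) i j * (v c j * v b i) = -Fvv B v := by
      unfold Fvv
      rw [← sum_neg_distrib]
      refine sum_congr rfl fun c _ => ?_
      rw [← sum_neg_distrib]
      refine sum_congr rfl fun b _ => ?_
      rw [← sum_neg_distrib]
      refine sum_congr rfl fun i _ => ?_
      rw [← sum_neg_distrib]
      refine sum_congr rfl fun j _ => ?_
      have e3 : cmt (B c) (B b) i j = -cmt (B b) (B c) i j := by
        unfold cmt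
        rw [← sum_neg_distrib]
        exact sum_congr rfl fun k _ => by ring
      rw [e3]
      ring
    rw [rFR, e1]
    have e2 := (abs_le.mp c7).1
    have e3 : 0 ≤ 2 * a ^ 2 := by positivity
    calc 2 * a ^ 2 * -Fvv B v ≤ 2 * a ^ 2 * (2 * (S * V)) :=
          mul_le_mul_of_nonneg_left (by linarith) e3
      _ = 4 * (S * (a * a * V)) := by ring
      _ ≤ 4 * (S * (s ^ 2 * q ^ 2)) := by
          have := mul_le_mul_of_nonneg_left haV hS
          linarith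
      _ = 4 * (s ^ 2 * (S * q ^ 2)) := by ring
      _ ≤ 4 * (s * (S * q ^ 2)) := by linarith
  -- expansion
  set R := r1 a v with hR
  have x1 : ∑ i, y i * lf B (L + R) i = (∑ i, y i * lf B L i) + ∑ i, y i * lf B R i := by
    rw [← sum_add_distrib]
    exact sum_congr rfl fun i _ => by rw [lf_add]; ring
  have x2 : ∑ i, lf B (L + R) i * (lf B (L + R) i + zf h B v i - f0v h B v i + lam * S * y i) =
      (∑ i, lf B L i * (lf B L i + zf h B v i - f0v h B v i + lam * S * y i))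
      + 2 * (∑ i, lf B L i * lf B R i) + (∑ i, lf B R i ^ 2) + (∑ i, lf B R i * zf h B v i)
      - (∑ i, lf B R i * f0v h B v i) + lam * S * ∑ i, y i * lf B R i := by
    rw [mul_sum, mul_sum, ← sum_add_distrib, ← sum_add_distrib, ← sum_add_distrib,
      ← sum_sub_distrib, ← sum_add_distrib]
    exact sum_congr rfl fun i _ => by rw [lf_add]; ring
  have x3 : ∑ c, ∑ b, ∑ j, (thf B (L + R) c b j ^ 2 + e12 h B v c b j * thf B (L + R) c b j) =
      (∑ c, ∑ b, ∑ j, (thf B L c b j ^ 2 + e12 h B v c b j * thf B L c b j))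
      + 2 * (∑ c, ∑ b, ∑ i, thf B L c b i * thf B R c b i)
      + (∑ c, ∑ b, ∑ i, thf B R c b i ^ 2)
      + ∑ c, ∑ b, ∑ i, e12 h B v c b i * thf B R c b i := by
    have e : ∀ c b j, thf B (L + R) c b j ^ 2 + e12 h B v c b j * thf B (L + R) c b j =
        (thf B L c b j ^ 2 + e12 h B v c b j * thf B L c b j) + 2 * (thf B L c b j * thf B R c b j)
        + thf B R c b j ^ 2 + e12 h B v c b j * thf B R c b j := by
      intro c b j
      rw [thf_add]
      ring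
    simp only [e, sum_add_distrib, mul_sum]
  have hlR0 : 0 ≤ ∑ i, lf B R i ^ 2 := sum_nonneg fun _ _ => sq_nonneg _
  have hNR : nL R = 2 * a * V + 2 * (a ^ 2 * V) := by
    rw [rN]
    have : a ^ 2 * (n : ℝ) = a := by
      calc a ^ 2 * (n : ℝ) = a * (a * n) := by ring
        _ = a := by rw [han]; ring
    calc 2 * a ^ 2 * ((n : ℝ) + 1) * V = 2 * (a ^ 2 * (n : ℝ)) * V + 2 * (a ^ 2 * V) := by ring
      _ = 2 * a * V + 2 * (a ^ 2 * V) := by rw [this]
  unfold Qf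
  rw [rA, hNR, x1, x2, x3, rF]
  set W := kap * a + S with hW
  have hWS : S ≤ W := by
    have : 0 ≤ kap * a := mul_nonneg hk ha
    linarith
  have hW0 : 0 ≤ W := hS.trans hWS
  have hM : 0 ≤ s * (N + q ^ 2) := by positivity
  have hSM : s * (S * (N + q ^ 2)) ≤ s * (W * (N + q ^ 2)) := by
    have := mul_le_mul_of_nonneg_right hWS hM
    linarith
  have hSq2 : s * (S * q ^ 2) ≤ s * (W * (N + q ^ 2)) := by
    refine le_trans ?_ hSM
    have : 0 ≤ s * (S * N) := by positivity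
    linarith
  have hWq : s * (W * q ^ 2) ≤ s * (W * (N + q ^ 2)) := by
    have : 0 ≤ s * (W * N) := by positivity
    linarith
  have t1 : -(4 * (s * (W * q ^ 2))) ≤ W * (lam * (2 * ∑ i, y i * lf B R i)) := by
    have e1 := (abs_le.mp m1).1
    have e2 : -(2 * (s * q ^ 2)) ≤ lam * ∑ i, y i * lf B R i := by
      have e3 : |lam * ∑ i, y i * lf B R i| ≤ 2 * (s * q ^ 2) := by
        rw [abs_mul, abs_of_nonneg hl]
        calc lam * |∑ i, y i * lf B R i| ≤ 1 * |∑ i, y i * lf B R i| :=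
              mul_le_mul_of_nonneg_right hl1 (abs_nonneg _)
          _ ≤ 2 * (s * q ^ 2) := by rw [one_mul]; exact m1
      exact (abs_le.mp e3).1
    have e4 := mul_le_mul_of_nonneg_left e2 hW0
    linarith [e4]
  have t5 : -(2 * (s * (S * q ^ 2))) ≤ lam * S * ∑ i, y i * lf B R i := by
    have e3 : |lam * ∑ i, y i * lf B R i| ≤ 2 * (s * q ^ 2) := by
      rw [abs_mul, abs_of_nonneg hl]
      calc lam * |∑ i, y i * lf B R i| ≤ 1 * |∑ i, y i * lf B R i| :=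
            mul_le_mul_of_nonneg_right hl1 (abs_nonneg _)
        _ ≤ 2 * (s * q ^ 2) := by rw [one_mul]; exact m1
    have e4 := mul_le_mul_of_nonneg_left (abs_le.mp e3).1 hS
    linarith [e4]
  have t2 := (abs_le.mp m2).1
  have t3 := (abs_le.mp m3).1
  have t4 := (abs_le.mp m4).2
  -- the beta term
  set X := 2 * (∑ c, ∑ b, ∑ i, thf B L c b i * thf B R c b i)
      + (∑ c, ∑ b, ∑ i, thf B R c b i ^ 2)
      + (∑ c, ∑ b, ∑ i, e12 h B v c b i * thf B R c b i)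
      + 2 * (2 * FLL B L R + FLL B R R) with hX
  have tX : X ≤ 76 * (s * (W * (N + q ^ 2))) := by
    have u1 := (abs_le.mp m6).2
    have u2 := (abs_le.mp m8).2
    have u3 := (abs_le.mp m9).2
    rw [hX]
    linarith
  have hX0 : 0 ≤ s * (W * (N + q ^ 2)) := by positivity
  have tb : bet * X ≤ 76 * (s * (W * (N + q ^ 2))) := by
    rcases le_total 0 X with h0 | h0
    · calc bet * X ≤ 1 * X := mul_le_mul_of_nonneg_right hb1 h0
        _ ≤ _ := by rw [one_mul]; exact tX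
    · have : bet * X ≤ 0 := mul_nonpos_of_nonneg_of_nonpos hb h0
      linarith
  have haV2 : 0 ≤ W * (2 * (a ^ 2 * V)) := by positivity
  rw [hX] at tb
  have key : bet * ((∑ c, ∑ b, ∑ j, (thf B L c b j ^ 2 + e12 h B v c b j * thf B L c b j))
      + 2 * (∑ c, ∑ b, ∑ i, thf B L c b i * thf B R c b i)
      + (∑ c, ∑ b, ∑ i, thf B R c b i ^ 2)
      + (∑ c, ∑ b, ∑ i, e12 h B v c b i * thf B R c b i)
      + 2 * (FLL B L L + 2 * FLL B L R + FLL B R R) + 2 * Fsvv B v)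
      = bet * ((∑ c, ∑ b, ∑ j, (thf B L c b j ^ 2 + e12 h B v c b j * thf B L c b j))
        + 2 * FLL B L L + 2 * Fsvv B v)
      + bet * (2 * (∑ c, ∑ b, ∑ i, thf B L c b i * thf B R c b i)
      + (∑ c, ∑ b, ∑ i, thf B R c b i ^ 2)
      + (∑ c, ∑ b, ∑ i, e12 h B v c b i * thf B R c b i)
      + 2 * (2 * FLL B L R + FLL B R R)) := by ring
  rw [key]
  linarith [t1, t2, t3, t4, t5, tb, haV2, hlR0, hSM, hSq2, hWq, hX0]

end Pool.Agent.Helper65.YMR
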