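import Pool.Agent.Helper39.YM.M_QF
import Pool.Agent.Helper39.YM.M_CS
import Pool.Agent.Helper92.YMF.Conv

/-!
# Project YM, FIN: the gradient inequality with exact relations gives the one with errors

`CGRADL n kap bet lam → CGRAD n kap bet lam` for all `n ≥ 1` and all real `kap, bet, lam`.
-/

set_option autoImplicit false

namespace Pool.Agent.Helper65.YMR

open Finset Helper35.YM Pool.Agent.Helper92.YMF Pool.Agent.Helper39.YM

variable {n p : ℕ}

/-- `|L|² + |v|² + |t|²` -/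
noncomputable def PP3 (L : Fin p → Fin n → Fin n → Fin n → ℝ) (v : Fin p → Fin n → ℝ)
    (t : Fin n → ℝ) : ℝ := nL L + nv v + ∑ i, t i ^ 2

/-- the constant -/
noncomputable def K0 (kap bet lam : ℝ) : ℝ :=
  (|kap| + 2) * (6 + 4 * |lam|) + 2 * (10 + 2 * |lam|) + |bet| * 96

theorem K0_pos (kap bet lam : ℝ) : 0 < K0 kap bet lam := by
  unfold K0
  positivity

theorem nt_nonneg (t : Fin n → ℝ) : 0 ≤ ∑ i, t i ^ 2 := sum_nonneg fun _ _ => sq_nonneg _

theorem PP3_nonneg (L : Fin p → Fin n → Fin n → Fin n → ℝ) (v : Fin p → Fin n → ℝ)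
    (t : Fin n → ℝ) : 0 ≤ PP3 L v t :=
  add_nonneg (add_nonneg (nL_nonneg L) (nv_nonneg v)) (nt_nonneg t)

theorem abs_dot {J : Type} [Fintype J] (f g : J → ℝ) :
    |∑ i, f i * g i| ≤ ((∑ i, f i ^ 2) + ∑ i, g i ^ 2) / 2 := by
  have h1 : 0 ≤ ∑ i, f i ^ 2 := sum_nonneg fun _ _ => sq_nonneg _
  have h2 : 0 ≤ ∑ i, g i ^ 2 := sum_nonneg fun _ _ => sq_nonneg _
  apply abs_le_of_sq_le_sq _ (by positivity)
  have h := cs f g
  nlinarith [sq_nonneg ((∑ i, f i ^ 2) - ∑ i, g i ^ 2)]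

theorem abs_dot3 {J J' J'' : Type} [Fintype J] [Fintype J'] [Fintype J''] (f g : J → J' → J'' → ℝ) :
    |∑ i, ∑ j, ∑ l, f i j l * g i j l| ≤
      ((∑ i, ∑ j, ∑ l, f i j l ^ 2) + ∑ i, ∑ j, ∑ l, g i j l ^ 2) / 2 := by
  have h1 : 0 ≤ ∑ i, ∑ j, ∑ l, f i j l ^ 2 :=
    sum_nonneg fun _ _ => sum_nonneg fun _ _ => sum_nonneg fun _ _ => sq_nonneg _
  have h2 : 0 ≤ ∑ i, ∑ j, ∑ l, g i j l ^ 2 :=
    sum_nonneg fun _ _ => sum_nonneg fun _ _ => sum_nonneg fun _ _ => sq_nonneg _
  apply abs_le_of_sq_le_sq _ (by positivity)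
  have h := cs3 f g
  nlinarith [sq_nonneg ((∑ i, ∑ j, ∑ l, f i j l ^ 2) - ∑ i, ∑ j, ∑ l, g i j l ^ 2)]

/-- The size of `Qf`, all parameters. -/
theorem Qf_le (kap bet lam a : ℝ) (h : Fin n → Fin n → ℝ) (B : Fin p → Fin n → Fin n → ℝ)
    (L : Fin p → Fin n → Fin n → Fin n → ℝ) (v : Fin p → Fin n → ℝ) (t : Fin n → ℝ)
    (ha : 0 ≤ a) (ha1 : a ≤ 1) (hh : nh h + sB B ≤ 2 * a) :
    |Qf kap bet lam a h B L v t| ≤ K0 kap bet lam * PP3 L v t := by
  obtain ⟨c1, c2, c3, c4, c5, -, c7, c8, c9⟩ := hCS n p h B L L v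
  have hS := sB_nonneg B
  have hH := nh_nonneg h
  have hN := nL_nonneg L
  have hV := nv_nonneg v
  have ht := nt_nonneg t
  set S := sB B with hSd
  set H := nh h with hHd
  set N := nL L with hNd
  set V := nv v with hVd
  set τ := ∑ i, t i ^ 2 with hτ
  have hS2 : S ≤ 2 := by linarith
  have hH2 : H ≤ 2 := by linarith
  have hP : PP3 L v t = N + V + τ := rfl
  rw [hP]
  have hSN : S * N ≤ 2 * N := mul_le_mul_of_nonneg_right hS2 hN
  have hSV : S * V ≤ 2 * V := mul_le_mul_of_nonneg_right hS2 hV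
  have hHV : H * V ≤ 2 * V := mul_le_mul_of_nonneg_right hH2 hV
  have hHSV : H * S * V ≤ 4 * V := by
    calc H * S * V = H * (S * V) := by ring
      _ ≤ 2 * (2 * V) := mul_le_mul hH2 hSV (by positivity) (by norm_num)
      _ = 4 * V := by ring
  have e1 : |∑ i, t i * lf B L i| ≤ N + τ := by
    have := abs_dot t (lf B L)
    linarith
  have e2 : |∑ i, lf B L i * zf h B v i| ≤ N + 2 * V := by
    have := abs_dot (lf B L) (zf h B v)
    linarith
  have e3 : |∑ i, lf B L i * f0v h B v i| ≤ N + 8 * V := by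
    have := abs_dot (lf B L) (f0v h B v)
    linarith
  have e4 : |∑ a, ∑ b, ∑ j, e12 h B v a b j * thf B L a b j| ≤ 80 * V + 4 * N := by
    have := abs_dot3 (e12 h B v) (thf B L)
    linarith
  have e5 : |FLL B L L| ≤ 4 * N := by
    apply abs_le_of_sq_le_sq _ (by positivity)
    calc FLL B L L ^ 2 ≤ 4 * (S ^ 2 * (N * N)) := c9
      _ = 4 * ((S * N) * (S * N)) := by ring
      _ ≤ 4 * ((2 * N) * (2 * N)) := by
          have := mul_le_mul hSN hSN (by positivity) (by positivity)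
          linarith
      _ = (4 * N) ^ 2 := by ring
  have e6 : |Fsvv B v| ≤ 8 * V := by
    refine c8.trans ?_
    calc 2 * (S ^ 2 * V) = 2 * (S * (S * V)) := by ring
      _ ≤ 2 * (2 * (2 * V)) := by
          have := mul_le_mul hS2 hSV (by positivity) (by norm_num)
          linarith
      _ = 8 * V := by ring
  have e7 : |Fvv B v| ≤ 4 * V := by linarith
  have e8 : 0 ≤ ∑ i, lf B L i ^ 2 := sum_nonneg fun _ _ => sq_nonneg _
  have e9 : 0 ≤ ∑ a, ∑ b, ∑ j, thf B L a b j ^ 2 :=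
    sum_nonneg fun _ _ => sum_nonneg fun _ _ => sum_nonneg fun _ _ => sq_nonneg _
  have hl0 := abs_nonneg lam
  -- the three parts
  set A1 := N - (H + S) * V - Fvv B v + lam * (S * (τ + V) + 2 * ∑ i, t i * lf B L i) with hA1
  have b1 : |A1| ≤ (6 + 4 * |lam|) * (N + V + τ) := by
    have q1 : |S * (τ + V) + 2 * ∑ i, t i * lf B L i| ≤ 4 * (N + V + τ) := by
      have hSt : S * (τ + V) ≤ 2 * (τ + V) := mul_le_mul_of_nonneg_right hS2 (by positivity)
      have hSt0 : 0 ≤ S * (τ + V) := by positivity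
      rw [abs_le] at e1 ⊢
      constructor <;> linarith [e1.1, e1.2]
    have q2 : |lam * (S * (τ + V) + 2 * ∑ i, t i * lf B L i)| ≤ |lam| * (4 * (N + V + τ)) := by
      rw [abs_mul]
      exact mul_le_mul_of_nonneg_left q1 hl0
    have q3 : |N - (H + S) * V - Fvv B v| ≤ 6 * (N + V + τ) := by
      have q4 : (H + S) * V ≤ 2 * V :=
        mul_le_mul_of_nonneg_right (by linarith) hV
      have q5 : 0 ≤ (H + S) * V := by positivity
      rw [abs_le] at e7 ⊢
      constructor <;> linarith [e7.1, e7.2]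
    calc |A1| ≤ |N - (H + S) * V - Fvv B v| + |lam * (S * (τ + V) + 2 * ∑ i, t i * lf B L i)| :=
          abs_add_le _ _
      _ ≤ 6 * (N + V + τ) + |lam| * (4 * (N + V + τ)) := add_le_add q3 q2
      _ = (6 + 4 * |lam|) * (N + V + τ) := by ring
  set A2 := ∑ i, lf B L i * (lf B L i + zf h B v i - f0v h B v i + lam * S * t i) with hA2
  have b2 : |A2| ≤ (10 + 2 * |lam|) * (N + V + τ) := by
    have q1 : A2 = (∑ i, lf B L i ^ 2) + (∑ i, lf B L i * zf h B v i)
        - (∑ i, lf B L i * f0v h B v i) + lam * (S * ∑ i, t i * lf B L i) := by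
      rw [hA2, mul_sum, mul_sum, ← sum_add_distrib, ← sum_sub_distrib, ← sum_add_distrib]
      exact sum_congr rfl fun i _ => by ring
    have q2 : |lam * (S * ∑ i, t i * lf B L i)| ≤ |lam| * (2 * (N + V + τ)) := by
      rw [abs_mul, abs_mul, abs_of_nonneg hS]
      apply mul_le_mul_of_nonneg_left _ hl0
      exact mul_le_mul hS2 (by linarith) (abs_nonneg _) (by norm_num)
    have q3 : |(∑ i, lf B L i ^ 2) + (∑ i, lf B L i * zf h B v i)
        - (∑ i, lf B L i * f0v h B v i)| ≤ 10 * (N + V + τ) := by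
      rw [abs_le] at e2 e3 ⊢
      constructor <;> linarith [e2.1, e2.2, e3.1, e3.2]
    rw [q1]
    calc _ ≤ |(∑ i, lf B L i ^ 2) + (∑ i, lf B L i * zf h B v i)
        - (∑ i, lf B L i * f0v h B v i)| + |lam * (S * ∑ i, t i * lf B L i)| := abs_add_le _ _
      _ ≤ 10 * (N + V + τ) + |lam| * (2 * (N + V + τ)) := add_le_add q3 q2
      _ = (10 + 2 * |lam|) * (N + V + τ) := by ring
  set A3 := (∑ c, ∑ b, ∑ j, (thf B L c b j ^ 2 + e12 h B v c b j * thf B L c b j))
      + 2 * FLL B L L + 2 * Fsvv B v with hA3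
  have b3 : |A3| ≤ 96 * (N + V + τ) := by
    have q1 : ∑ c, ∑ b, ∑ j, (thf B L c b j ^ 2 + e12 h B v c b j * thf B L c b j) =
        (∑ a, ∑ b, ∑ j, thf B L a b j ^ 2) + ∑ a, ∑ b, ∑ j, e12 h B v a b j * thf B L a b j := by
      simp only [sum_add_distrib]
    rw [hA3, q1]
    rw [abs_le] at e4 e5 e6 ⊢
    constructor <;> linarith [e4.1, e4.2, e5.1, e5.2, e6.1, e6.2]
  have hW : |kap * a + S| ≤ |kap| + 2 := by
    have q1 : |kap * a| ≤ |kap| := by
      rw [abs_mul, abs_of_nonneg ha]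
      calc |kap| * a ≤ |kap| * 1 := mul_le_mul_of_nonneg_left ha1 (abs_nonneg _)
        _ = |kap| := mul_one _
    calc |kap * a + S| ≤ |kap * a| + |S| := abs_add_le _ _
      _ ≤ |kap| + 2 := by rw [abs_of_nonneg hS]; linarith
  have hQ : Qf kap bet lam a h B L v t = (kap * a + S) * A1 + 2 * A2 - bet * A3 := rfl
  rw [hQ]
  have hP0 : 0 ≤ N + V + τ := by positivity
  calc |(kap * a + S) * A1 + 2 * A2 - bet * A3|
      ≤ |(kap * a + S) * A1| + |2 * A2| + |bet * A3| := by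
        refine (abs_sub _ _).trans ?_
        linarith [abs_add_le ((kap * a + S) * A1) (2 * A2)]
    _ = |kap * a + S| * |A1| + 2 * |A2| + |bet| * |A3| := by
        rw [abs_mul, abs_mul, abs_mul, abs_of_pos (by norm_num : (0 : ℝ) < 2)]
    _ ≤ (|kap| + 2) * ((6 + 4 * |lam|) * (N + V + τ)) + 2 * ((10 + 2 * |lam|) * (N + V + τ))
        + |bet| * (96 * (N + V + τ)) := by
        have q1 := mul_le_mul hW b1 (abs_nonneg _) (by positivity)
        have q2 := mul_le_mul_of_nonneg_left b3 (abs_nonneg bet)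
        linarith
    _ = K0 kap bet lam * (N + V + τ) := by unfold K0; ring

theorem nL_add_le (L L' : Fin p → Fin n → Fin n → Fin n → ℝ) :
    nL (L + L') ≤ 2 * nL L + 2 * nL L' := by
  unfold nL
  rw [mul_sum, mul_sum, ← sum_add_distrib]
  refine sum_le_sum fun a _ => ?_
  rw [mul_sum, mul_sum, ← sum_add_distrib]
  refine sum_le_sum fun i _ => ?_
  rw [mul_sum, mul_sum, ← sum_add_distrib]
  refine sum_le_sum fun j _ => ?_
  rw [mul_sum, mul_sum, ← sum_add_distrib]
  refine sum_le_sum fun k _ => ?_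
  simp only [Pi.add_apply]
  nlinarith [sq_nonneg (L a i j k - L' a i j k)]

theorem nv_add_le (L L' : Fin p → Fin n → ℝ) : nv (L + L') ≤ 2 * nv L + 2 * nv L' := by
  unfold nv
  rw [mul_sum, mul_sum, ← sum_add_distrib]
  refine sum_le_sum fun a _ => ?_
  rw [mul_sum, mul_sum, ← sum_add_distrib]
  refine sum_le_sum fun i _ => ?_
  simp only [Pi.add_apply]
  nlinarith [sq_nonneg (L a i - L' a i)]

theorem nt_add_le (t t' : Fin n → ℝ) :
    ∑ i, (t + t') i ^ 2 ≤ 2 * (∑ i, t i ^ 2) + 2 * ∑ i, t' i ^ 2 := by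
  rw [mul_sum, mul_sum, ← sum_add_distrib]
  refine sum_le_sum fun i _ => ?_
  simp only [Pi.add_apply]
  nlinarith [sq_nonneg (t i - t' i)]

theorem nL_smul (c : ℝ) (L : Fin p → Fin n → Fin n → Fin n → ℝ) : nL (c • L) = c ^ 2 * nL L := by
  unfold nL
  simp only [Pi.smul_apply, smul_eq_mul, mul_pow, mul_sum]

theorem nv_smul (c : ℝ) (L : Fin p → Fin n → ℝ) : nv (c • L) = c ^ 2 * nv L := by
  unfold nv
  simp only [Pi.smul_apply, smul_eq_mul, mul_pow, mul_sum]

theorem nt_smul (c : ℝ) (t : Fin n → ℝ) : ∑ i, (c • t) i ^ 2 = c ^ 2 * ∑ i, t i ^ 2 := by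
  simp only [Pi.smul_apply, smul_eq_mul, mul_pow, mul_sum]

theorem PP3_add (L L' : Fin p → Fin n → Fin n → Fin n → ℝ) (v v' : Fin p → Fin n → ℝ)
    (t t' : Fin n → ℝ) (c : ℝ) :
    PP3 (L + c • L') (v + c • v') (t + c • t') ≤ 2 * PP3 L v t + 2 * (c ^ 2 * PP3 L' v' t') := by
  unfold PP3
  have h1 := nL_add_le L (c • L')
  have h2 := nv_add_le v (c • v')
  have h3 := nt_add_le t (c • t')
  rw [nL_smul] at h1
  rw [nv_smul] at h2
  rw [nt_smul] at h3
  linarith

/-- The abstract perturbation argument. -/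
theorem pert (kap bet lam a : ℝ) (h : Fin n → Fin n → ℝ) (B : Fin p → Fin n → Fin n → ℝ)
    (L L' : Fin p → Fin n → Fin n → Fin n → ℝ) (v v' : Fin p → Fin n → ℝ) (t t' : Fin n → ℝ)
    (ha : 0 ≤ a) (ha1 : a ≤ 1) (hh : nh h + sB B ≤ 2 * a) (e w : ℝ) (he : 0 < e) (hw : 0 < w)
    (hz : PP3 L v t ≤ 72 * (w ^ 2 + e ^ 2)) (hE : PP3 L' v' t' ≤ 45 * e ^ 2) :
    Qf kap bet lam a h B L v t - 396 * K0 kap bet lam * (e * (e + w)) ≤
      Qf kap bet lam a h B (L + L') (v + v') (t + t') := by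
  set d := e / (e + w) with hd
  have hew : 0 < e + w := by positivity
  have hd0 : 0 < d := by positivity
  rw [hQF n p kap bet lam a d h B L L' v v' t t' hd0.ne']
  have q1 := Qf_le kap bet lam a h B L v t ha ha1 hh
  have q2 := Qf_le kap bet lam a h B L' v' t' ha ha1 hh
  have q3 := Qf_le kap bet lam a h B (L + d⁻¹ • L') (v + d⁻¹ • v') (t + d⁻¹ • t') ha ha1 hh
  have q4 := PP3_add L L' v v' t t' d⁻¹
  have hK := K0_pos kap bet lam
  set K := K0 kap bet lam with hKd
  set Z := PP3 L v t with hZ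
  set E := PP3 L' v' t' with hEd
  have hZ0 : 0 ≤ Z := PP3_nonneg L v t
  have hE0 : 0 ≤ E := PP3_nonneg L' v' t'
  have hdi : 0 < d⁻¹ := inv_pos.2 hd0
  have r1 : d * Qf kap bet lam a h B L v t ≤ d * (K * Z) :=
    mul_le_mul_of_nonneg_left (abs_le.mp q1).2 hd0.le
  have r2 : -((1 + d⁻¹) * (K * E)) ≤ (1 - d⁻¹) * Qf kap bet lam a h B L' v' t' := by
    have : |(1 - d⁻¹) * Qf kap bet lam a h B L' v' t'| ≤ (1 + d⁻¹) * (K * E) := by
      rw [abs_mul]
      apply mul_le_mul _ q2 (abs_nonneg _) (by positivity)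
      rw [abs_le]
      constructor <;> linarith
    exact (abs_le.mp this).1
  have r3 : -(d * (K * (2 * Z + 2 * (d⁻¹ ^ 2 * E)))) ≤
      d * Qf kap bet lam a h B (L + d⁻¹ • L') (v + d⁻¹ • v') (t + d⁻¹ • t') := by
    have r4 := (abs_le.mp q3).1
    have r5 : K * PP3 (L + d⁻¹ • L') (v + d⁻¹ • v') (t + d⁻¹ • t') ≤
        K * (2 * Z + 2 * (d⁻¹ ^ 2 * E)) := mul_le_mul_of_nonneg_left q4 hK.le
    have r6 := mul_le_mul_of_nonneg_left (show -(K * (2 * Z + 2 * (d⁻¹ ^ 2 * E))) ≤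
      Qf kap bet lam a h B (L + d⁻¹ • L') (v + d⁻¹ • v') (t + d⁻¹ • t') by linarith) hd0.le
    linarith
  have s1 : d * Z ≤ 72 * (e * (e + w)) := by
    have : d * Z ≤ d * (72 * (w ^ 2 + e ^ 2)) := mul_le_mul_of_nonneg_left hz hd0.le
    refine this.trans ?_
    rw [hd, div_mul_eq_mul_div, div_le_iff₀ hew]
    have : 0 ≤ e * w := by positivity
    nlinarith [mul_nonneg he.le this, mul_nonneg he.le (mul_nonneg he.le hw.le)]
  have s2 : d⁻¹ * E ≤ 45 * (e * (e + w)) := by
    have : d⁻¹ * E ≤ d⁻¹ * (45 * e ^ 2) := mul_le_mul_of_nonneg_left hE hdi.le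
    refine this.trans (le_of_eq ?_)
    rw [hd, inv_div]
    field_simp
  have s3 : E ≤ 45 * (e * (e + w)) := by
    refine hE.trans ?_
    have : 0 ≤ e * w := by positivity
    nlinarith
  have s4 : d * (d⁻¹ ^ 2 * E) = d⁻¹ * E := by
    field_simp
  have key : K * (3 * (d * Z) + E + 3 * (d⁻¹ * E)) ≤ 396 * K * (e * (e + w)) := by
    have : 3 * (d * Z) + E + 3 * (d⁻¹ * E) ≤ 396 * (e * (e + w)) := by linarith
    calc K * (3 * (d * Z) + E + 3 * (d⁻¹ * E)) ≤ K * (396 * (e * (e + w))) :=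
          mul_le_mul_of_nonneg_left this hK.le
      _ = 396 * K * (e * (e + w)) := by ring
  have e1 : d * (K * (2 * Z + 2 * (d⁻¹ ^ 2 * E))) = K * (2 * (d * Z) + 2 * (d⁻¹ * E)) := by
    calc d * (K * (2 * Z + 2 * (d⁻¹ ^ 2 * E))) = K * (2 * (d * Z) + 2 * (d * (d⁻¹ ^ 2 * E))) := by
          ring
      _ = _ := by rw [s4]
  have e2 : (1 + d⁻¹) * (K * E) = K * (E + d⁻¹ * E) := by ring
  have e3 : d * (K * Z) = K * (d * Z) := by ring
  linarith

/-- `τ(r)_ijk = (δ_ij r_k + δ_ik r_j + δ_jk r_i)/(n+2)` -/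
noncomputable def tau (r : Fin p → Fin n → ℝ) (c : Fin p) (i j k : Fin n) : ℝ :=
  1 / ((n : ℝ) + 2) * ((if i = j then r c k else 0) + (if i = k then r c j else 0)
    + (if j = k then r c i else 0))

theorem tau_sym (r : Fin p → Fin n → ℝ) : Sym3 (tau r) := by
  constructor
  · intro a i j k
    unfold tau
    rcases eq_or_ne i j with h | h
    · subst h; ring
    · rw [if_neg h, if_neg (Ne.symm h)]
      ring
  · intro a i j k
    unfold tau
    rcases eq_or_ne j k with h | h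
    · subst h; ring
    · rw [if_neg h, if_neg (Ne.symm h)]
      ring

theorem tau_tr (r : Fin p → Fin n → ℝ) (c : Fin p) (i : Fin n) : vT (tau r) c i = r c i := by
  unfold vT tau
  rw [← mul_sum, sum_add_distrib, sum_add_distrib]
  have h1 : ∑ k, (if i = k then r c k else 0) = r c i := by simp
  have h2 : ∑ k : Fin n, (if k = k then r c i else 0) = n * r c i := by simp
  rw [h1, h2]
  have : (n : ℝ) + 2 ≠ 0 := by positivity
  field_simp
  ring

theorem tau_nL (r : Fin p → Fin n → ℝ) : nL (tau r) ≤ 9 * nv r := by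
  have hn : (0 : ℝ) < (n : ℝ) + 2 := by positivity
  set b := 1 / ((n : ℝ) + 2) with hb
  have hb0 : 0 < b := by positivity
  have h1 : ∀ c i j k, tau r c i j k ^ 2 ≤ 3 * b ^ 2 * ((if i = j then r c k ^ 2 else 0)
      + (if i = k then r c j ^ 2 else 0) + (if j = k then r c i ^ 2 else 0)) := by
    intro c i j k
    have e : ∀ x y z : ℝ, (b * (x + y + z)) ^ 2 ≤ 3 * b ^ 2 * (x ^ 2 + y ^ 2 + z ^ 2) := by
      intro x y z
      have : (x + y + z) ^ 2 ≤ 3 * (x ^ 2 + y ^ 2 + z ^ 2) := by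
        nlinarith [sq_nonneg (x - y), sq_nonneg (y - z), sq_nonneg (x - z)]
      calc (b * (x + y + z)) ^ 2 = b ^ 2 * (x + y + z) ^ 2 := by ring
        _ ≤ b ^ 2 * (3 * (x ^ 2 + y ^ 2 + z ^ 2)) := mul_le_mul_of_nonneg_left this (sq_nonneg b)
        _ = _ := by ring
    have e1 : ∀ (q : Prop) [Decidable q] (x : ℝ), (if q then x ^ 2 else 0) = (if q then x else 0) ^ 2 := by
      intro q _ x
      split_ifs <;> simp
    rw [e1, e1, e1]
    exact e _ _ _
  have h2 : nL (tau r) ≤ ∑ c, ∑ i, ∑ j, ∑ k, 3 * b ^ 2 * ((if i = j then r c k ^ 2 else 0)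
      + (if i = k then r c j ^ 2 else 0) + (if j = k then r c i ^ 2 else 0)) :=
    sum_le_sum fun c _ => sum_le_sum fun i _ => sum_le_sum fun j _ => sum_le_sum fun k _ => h1 c i j k
  have h3 : ∑ c, ∑ i : Fin n, ∑ j : Fin n, ∑ k : Fin n, 3 * b ^ 2 * ((if i = j then r c k ^ 2 else 0)
      + (if i = k then r c j ^ 2 else 0) + (if j = k then r c i ^ 2 else 0)) =
      9 * (n * b ^ 2) * nv r := by
    have g : ∀ c, ∑ i : Fin n, ∑ j : Fin n, ∑ k : Fin n, 3 * b ^ 2 * ((if i = j then r c k ^ 2 else 0)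
      + (if i = k then r c j ^ 2 else 0) + (if j = k then r c i ^ 2 else 0)) =
      9 * (n * b ^ 2) * ∑ i, r c i ^ 2 := by
      intro c
      simp only [← mul_sum]
      have g1 : ∑ i : Fin n, ∑ j : Fin n, ∑ k : Fin n, ((if i = j then r c k ^ 2 else 0)
          + (if i = k then r c j ^ 2 else 0) + (if j = k then r c i ^ 2 else 0)) =
          3 * (n * ∑ i, r c i ^ 2) := by
        simp only [sum_add_distrib]
        have f1 : ∑ i : Fin n, ∑ j : Fin n, ∑ k : Fin n, (if i = j then r c k ^ 2 else 0)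
            = n * ∑ i, r c i ^ 2 := by
          have : ∀ i j : Fin n, ∑ k : Fin n, (if i = j then r c k ^ 2 else 0)
              = if i = j then ∑ k, r c k ^ 2 else 0 := by
            intro i j
            split_ifs <;> simp
          simp [this]
        have f2 : ∑ i : Fin n, ∑ j : Fin n, ∑ k : Fin n, (if i = k then r c j ^ 2 else 0)
            = n * ∑ i, r c i ^ 2 := by
          simp
        have f3 : ∑ i : Fin n, ∑ j : Fin n, ∑ k : Fin n, (if j = k then r c i ^ 2 else 0)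
            = n * ∑ i, r c i ^ 2 := by
          simp [mul_sum]
        rw [f1, f2, f3]
        ring
      rw [g1]
      ring
    simp only [g]
    unfold nv
    rw [← mul_sum]
  have h4 : (n : ℝ) * b ^ 2 ≤ 1 := by
    rw [hb, div_pow, one_pow, mul_one_div, div_le_one (by positivity)]
    have : (0 : ℝ) ≤ n := Nat.cast_nonneg n
    nlinarith
  have h5 := nv_nonneg r
  calc nL (tau r) ≤ 9 * (n * b ^ 2) * nv r := h2.trans (le_of_eq h3)
    _ = 9 * ((n * b ^ 2) * nv r) := by ring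
    _ ≤ 9 * (1 * nv r) := by
        have := mul_le_mul_of_nonneg_right h4 h5
        linarith
    _ = 9 * nv r := by ring

theorem nL_hr (h : Fin n → Fin n → ℝ) (r : Fin p → Fin n → ℝ) :
    nL (fun c i j k => -(h j k * r c i)) = nh h * nv r := by
  unfold nL nh nv
  rw [mul_sum]
  refine sum_congr rfl fun c _ => ?_
  rw [mul_sum]
  refine sum_congr rfl fun i _ => ?_
  rw [sum_mul]
  refine sum_congr rfl fun j _ => ?_
  rw [sum_mul]
  exact sum_congr rfl fun k _ => by ring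

theorem nL_rB (rho : Fin n → ℝ) (B : Fin p → Fin n → Fin n → ℝ) :
    nL (fun c i j k => -(rho i * B c j k)) = (∑ i, rho i ^ 2) * sB B := by
  unfold nL sB
  rw [mul_sum]
  refine sum_congr rfl fun c _ => ?_
  rw [sum_mul]
  refine sum_congr rfl fun i _ => ?_
  rw [mul_sum]
  refine sum_congr rfl fun j _ => ?_
  rw [mul_sum]
  exact sum_congr rfl fun k _ => by ring

theorem nv_bX (B : Fin p → Fin n → Fin n → ℝ) (X : Fin n → ℝ) :
    nv (bX B X) ≤ sB B * ∑ i, X i ^ 2 := by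
  unfold nv sB bX
  rw [sum_mul]
  refine sum_le_sum fun c _ => ?_
  rw [sum_mul]
  exact sum_le_sum fun i _ => cs _ _

theorem nt_mX (m : Fin n → Fin n → ℝ) (X : Fin n → ℝ) :
    ∑ i, mX m X i ^ 2 ≤ nh m * ∑ i, X i ^ 2 := by
  unfold nh mX
  rw [sum_mul]
  exact sum_le_sum fun i _ => cs _ _

theorem cgrad_of_cgradl (hn : 1 ≤ n) (kap bet lam : ℝ) (hG : CGRADL n kap bet lam) :
    CGRAD n kap bet lam := by
  have hK := K0_pos kap bet lam
  refine ⟨396 * K0 kap bet lam, by positivity, ?_⟩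
  intro p h B T y X e w hh hB htr hB0 hpin hT he hw hE hW
  have hn1 : (1 : ℝ) ≤ n := by exact_mod_cast hn
  have hn0 : (0 : ℝ) < n := by linarith
  set a : ℝ := 1 / (n : ℝ) with ha
  have ha0 : 0 ≤ a := by positivity
  have ha1 : a ≤ 1 := by
    rw [ha, div_le_one hn0]
    exact hn1
  have hpin' : nh h + sB B ≤ 2 * a := by
    rw [ha]
    calc nh h + sB B ≤ 2 / (n : ℝ) := hpin
      _ = 2 * (1 / (n : ℝ)) := by ring
  set r : Fin p → Fin n → ℝ := fun c i => vT T c i - ∑ j, B c i j * X j with hr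
  set rho : Fin n → ℝ := fun i => y i - ∑ j, h i j * X j with hrho
  have hE' : nv r + ∑ i, rho i ^ 2 ≤ e ^ 2 := hE
  have hr0 := nv_nonneg r
  have hrho0 := nt_nonneg rho
  -- the corrected tensor
  set T' : Fin p → Fin n → Fin n → Fin n → ℝ := fun c i j k => T c i j k - tau r c i j k with hT'
  have hTs : Sym3 T' := by
    obtain ⟨t1, t2⟩ := hT
    obtain ⟨u1, u2⟩ := tau_sym r
    exact ⟨fun a i j k => by rw [hT']; simp only; rw [t1 a i j k, u1 a i j k],
      fun a i j k => by rw [hT']; simp only; rw [t2 a i j k, u2 a i j k]⟩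
  have hvT : vT T' = bX B X := by
    funext c i
    have : vT T' c i = vT T c i - vT (tau r) c i := by
      unfold vT
      rw [← sum_sub_distrib]
    rw [this, tau_tr]
    show vT T c i - (vT T c i - ∑ j, B c i j * X j) = _
    unfold bX
    ring
  have hG' := hG p h B T' X hh hB htr hB0 hpin hTs hvT
  rw [hGQ] at hG' ⊢
  rw [← ha] at hG' ⊢
  have hw1 : 1 ≤ w ^ 2 := by
    have h1 := nL_nonneg T
    have h2 := nt_nonneg y
    have h3 := nt_nonneg X
    linarith
  have hwpos : 0 < w := by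
    rcases hw.eq_or_lt with h0 | h0
    · rw [← h0] at hw1; norm_num at hw1
    · exact h0
  -- decomposition
  have hL : Lf h B T (vT T) y = Lf h B T' (bX B X) (mX h X) +
      (tau r + (fun c i j k => -(h j k * r c i)) + fun c i j k => -(rho i * B c j k)) := by
    funext c i j k
    simp only [Pi.add_apply, Lf, hT', hr, hrho, bX, mX]
    ring
  have hv : vT T = bX B X + r := by
    funext c i
    simp only [Pi.add_apply, hr, bX]
    ring
  have ht : (fun i => y i - a * X i) = (fun i => mX h X i - a * X i) + rho := by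
    funext i
    simp only [Pi.add_apply, hrho, mX]
    ring
  set E : Fin p → Fin n → Fin n → Fin n → ℝ :=
    tau r + (fun c i j k => -(h j k * r c i)) + fun c i j k => -(rho i * B c j k) with hEd
  have hS := sB_nonneg B
  have hH := nh_nonneg h
  have hH2 : nh h ≤ 2 := by linarith
  have hS2 : sB B ≤ 2 := by linarith
  have q1 := nL_add_le (tau r + fun c i j k => -(h j k * r c i))
    (fun c i j k => -(rho i * B c j k))
  have q2 := nL_add_le (tau r) (fun c i j k => -(h j k * r c i))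
  rw [nL_rB] at q1
  rw [nL_hr] at q2
  have q3 := tau_nL r
  have q4 : nh h * nv r ≤ 2 * nv r := mul_le_mul_of_nonneg_right hH2 hr0
  have q5 : (∑ i, rho i ^ 2) * sB B ≤ (∑ i, rho i ^ 2) * 2 := mul_le_mul_of_nonneg_left hS2 hrho0
  have nE : PP3 E r rho ≤ 45 * e ^ 2 := by
    unfold PP3
    linarith
  have hX0 := nt_nonneg X
  have hT0 := nL_nonneg T
  have hy0 := nt_nonneg y
  have x1 : nv (bX B X) ≤ 2 * ∑ i, X i ^ 2 :=
    (nv_bX B X).trans (mul_le_mul_of_nonneg_right hS2 hX0)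
  have x2 : ∑ i, mX h X i ^ 2 ≤ 2 * ∑ i, X i ^ 2 :=
    (nt_mX h X).trans (mul_le_mul_of_nonneg_right hH2 hX0)
  have x3 : nL T' ≤ 2 * nL T + 18 * nv r := by
    have e1 : T' = T + (-1 : ℝ) • tau r := by
      funext c i j k
      simp only [hT', Pi.add_apply, Pi.smul_apply, smul_eq_mul]
      ring
    rw [e1]
    have e2 := nL_add_le T ((-1 : ℝ) • tau r)
    rw [nL_smul] at e2
    linarith
  have x4 : nL (Lf h B T' (bX B X) (mX h X)) ≤
      4 * nL T' + 8 * nv (bX B X) + 4 * ∑ i, mX h X i ^ 2 := by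
    have e1 : Lf h B T' (bX B X) (mX h X) =
        (T' + fun c i j k => -(h j k * bX B X c i)) + fun c i j k => -(mX h X i * B c j k) := by
      funext c i j k
      simp only [Pi.add_apply, Lf]
      ring
    rw [e1]
    have e2 := nL_add_le (T' + fun c i j k => -(h j k * bX B X c i))
      (fun c i j k => -(mX h X i * B c j k))
    have e3 := nL_add_le T' (fun c i j k => -(h j k * bX B X c i))
    rw [nL_rB] at e2
    rw [nL_hr] at e3
    have e4 : nh h * nv (bX B X) ≤ 2 * nv (bX B X) :=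
      mul_le_mul_of_nonneg_right hH2 (nv_nonneg _)
    have e5 : (∑ i, mX h X i ^ 2) * sB B ≤ (∑ i, mX h X i ^ 2) * 2 :=
      mul_le_mul_of_nonneg_left hS2 (nt_nonneg _)
    linarith
  have x5 : ∑ i, (mX h X i - a * X i) ^ 2 ≤ 6 * ∑ i, X i ^ 2 := by
    have e1 : (fun i => mX h X i - a * X i) = mX h X + (-a) • X := by
      funext i
      simp only [Pi.add_apply, Pi.smul_apply, smul_eq_mul]
      ring
    have e2 := nt_add_le (mX h X) ((-a) • X)
    rw [nt_smul, ← e1] at e2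
    have e3 : (-a) ^ 2 * ∑ i, X i ^ 2 ≤ 1 * ∑ i, X i ^ 2 := by
      apply mul_le_mul_of_nonneg_right _ hX0
      nlinarith
    refine le_trans e2 ?_
    linarith
  have hZ : PP3 (Lf h B T' (bX B X) (mX h X)) (bX B X) (fun i => mX h X i - a * X i)
      ≤ 72 * (w ^ 2 + e ^ 2) := by
    unfold PP3
    linarith
  rcases he.eq_or_lt with h0 | h0
  · -- no error
    have z0 : nv r + ∑ i, rho i ^ 2 ≤ 0 := by
      rw [← h0] at hE'
      simpa using hE'
    have z1 : nv r = 0 := by linarith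
    have z2 : ∑ i, rho i ^ 2 = 0 := by linarith
    have z3 : ∀ c i, r c i = 0 := by
      intro c i
      unfold nv at z1
      have := (sum_eq_zero_iff_of_nonneg (fun c _ => sum_nonneg fun i _ => sq_nonneg (r c i))).1 z1
        c (mem_univ c)
      have := (sum_eq_zero_iff_of_nonneg (fun i _ => sq_nonneg (r c i))).1 this i (mem_univ i)
      exact pow_eq_zero_iff (two_ne_zero) |>.1 this
    have z4 : ∀ i, rho i = 0 := by
      intro i
      have := (sum_eq_zero_iff_of_nonneg (fun i _ => sq_nonneg (rho i))).1 z2 i (mem_univ i)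
      exact pow_eq_zero_iff (two_ne_zero) |>.1 this
    have z5 : E = 0 := by
      funext c i j k
      simp only [hEd, Pi.add_apply, tau, z3, z4, Pi.zero_apply]
      simp
    have z6 : r = 0 := by
      funext c i
      exact z3 c i
    have z7 : rho = 0 := by
      funext i
      exact z4 i
    rw [hL, hv, ht, z5, z6, z7, add_zero, add_zero, add_zero, ← h0]
    linarith
  · have key := pert kap bet lam a h B (Lf h B T' (bX B X) (mX h X)) E (bX B X) r
      (fun i => mX h X i - a * X i) rho ha0 ha1 hpin' e w h0 hwpos hZ nE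
    rw [hL, hv, ht]
    linarith

end Pool.Agent.Helper65.YMR
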